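import Mathlib
import Pool.Agent.H84.LpDefs
import Pool.Agent.H84.LpEx

set_option autoImplicit false

namespace Pool.Agent.Results.MP_04b39a_gt.Counter

open Pool.Agent.H84.LpDefs

theorem result : ∃ (p : ℝ) (M M' : Set (Fin 3 → ℝ)) (c : ℝ), 1 < p ∧ M.Infinite ∧
    (∀ x ∈ M, x 2 = c) ∧ IsCopy p M M' ∧
    (∀ P : AffineSubspace ℝ (Fin 3 → ℝ), IsPlane P → (M' ∩ (P : Set (Fin 3 → ℝ))).Finite) ∧
    ∀ P : AffineSubspace ℝ (Fin 3 → ℝ), IsPlane P → ¬ M' ⊆ (P : Set (Fin 3 → ℝ)) := by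
  open Pool.Agent.H84.LpEx in
  refine ⟨3, M, M', 0, by norm_num, Set.infinite_range_of_injective a_inj, ?_, copy, fin_plane,
    fun P hP h => Set.infinite_range_of_injective b_inj ?_⟩
  · rintro _ ⟨n, rfl⟩; rfl
  · have := Pool.Agent.H84.LpEx.fin_plane P hP
    rwa [Set.inter_eq_left.2 h] at this

end Pool.Agent.Results.MP_04b39a_gt.Counter
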